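import Pool.Agent.D0H92.RG.Gap

/-!
# Record gaps around the elements of all sets of integers with missing digits

Let `B ≥ 2`, and for each of the `N` places `j` let `A j` be ANY set of at least two digits `< B`; the sets `A j` may change
from place to place in an arbitrary way. Around almost all, in the sense of exponents, of the integers whose digit at the
place `j` is in `A j` for every `j`, and around the translates of their multiples `g n` by ANY integer `c`, there are no
primes at a distance of at most `κ` times `log x * (log log x)^2 * log log log log x / (log log log x)^2`, `x = e ^ N`; up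
to the constant this is the size of the longest gaps between primes which are known to exist (proved in the starting files
for free centres). The set may have only `2 ^ N` elements, that is `x ^ δ` elements up to `x = B ^ N` with a small `δ`, and
every `k`-th digit may be free and all the others prescribed (use the base `B ^ k`).

Method. The covering sieve of the starting files (`Pool.Agent.H256R2.SC`, by helper256 and co-authors; parameters as in its
theorem `covering`) needs that the centres are equidistributed modulo products of primes with a power saving, which is false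
for thin sets with missing digits. Here the weight of the sieve is expanded into a Fourier series in the residue classes
(`Trans`); its coefficients are small because of the moment bounds of the sieve (`Coef`, `Core`, `Wt`), like
`q ^ (-1/4)` at the fractions with denominator `q`, and the sum over all the fractions with denominator at most `e ^ (ε N)` of
the absolute values of the exponential sums with missing digits is estimated by the itineraries of the multiplication by `B`
and by the inequality between the arithmetic and the geometric mean for blocks of digits whose length depends on the size of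
the denominator (`It`, `Dig`, `Freq`, `Num`). For the residue classes modulo the primes up to `δ N / log N`, which are at the
same time prescribed, see `Dc`; Rankin's choice of these classes is `Surv` (after `Pool.Agent.H398R2.RK`, helper398).
-/

set_option autoImplicit false

namespace Pool.Agent.Results.MP_7b323f_nt.MissingDigits

/-- The size of the largest known gaps: `record t = t (log t)^2 log log log t / (log log t)^2`. -/
noncomputable def record (t : ℝ) : ℝ :=
  t * Real.log t ^ 2 * Real.log (Real.log (Real.log t)) / Real.log (Real.log t) ^ 2

/-- For every integer `m` at a distance of at most `ρ` from `n`, the number `|m|` is not a prime, and `m` has a prime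
factor of size at most `w`. -/
def PrimeFree (ρ w : ℝ) (n : ℤ) : Prop :=
  ∀ m : ℤ, |(m : ℝ) - n| ≤ ρ → ¬ m.natAbs.Prime ∧ ∃ q : ℕ, q.Prime ∧ (q : ℝ) ≤ w ∧ (q : ℤ) ∣ m

/-- **Record gaps around the elements of sets with missing digits.**

Let `B ≥ 2`, `g ≥ 1` and `η > 0`. There is `κ > 0` such that for all large `N`, for ALL sets `A 0, ..., A (N - 1)` of digits
`< B`, each with at least two elements, and for EVERY integer `c`, at least `(|A 0| ... |A (N - 1)|) ^ (1 - η)` of the
`|A 0| ... |A (N - 1)|` integers `n = ∑ j, d j * B ^ j`, `d j ∈ A j`, have the following property: no `m` with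
`|m - (g n + c)| ≤ κ record N` is a prime up to sign, and every such `m` has a prime factor `≤ e ^ (N / log N)`. -/
theorem result (B g : ℕ) (hB : 2 ≤ B) (hg : 1 ≤ g) (η : ℝ) (hη : 0 < η) :
    ∃ κ : ℝ, 0 < κ ∧ ∀ᶠ N : ℕ in Filter.atTop, ∀ A : Fin N → Finset ℕ,
      (∀ j, 2 ≤ (A j).card ∧ ∀ d ∈ A j, d < B) → ∀ c : ℤ,
        (∏ j, ((A j).card : ℝ)) ^ (1 - η) ≤ ({d : Fin N → ℕ | (∀ j, d j ∈ A j) ∧
          PrimeFree (κ * record N) (Real.exp (N / Real.log N))
            (g * ∑ j, (d j : ℤ) * (B : ℤ) ^ (j : ℕ) + c)}.ncard : ℝ) := by
  obtain ⟨κ, hκ, h⟩ := Pool.Agent.D0H92.RG.digit_gap B g hB hg η hη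
  refine ⟨κ, hκ, h.mono fun N hN A hA c => ?_⟩
  obtain ⟨W, hW1, hW2, hW3⟩ := hN A (fun j => (hA j).2) (fun j => (hA j).1) c
  rw [Fintype.card_piFinset] at hW2
  push_cast at hW2
  refine hW2.trans ?_
  have hfin : {d : Fin N → ℕ | (∀ j, d j ∈ A j) ∧ PrimeFree (κ * record N) (Real.exp (N / Real.log N))
      (g * ∑ j, (d j : ℤ) * (B : ℤ) ^ (j : ℕ) + c)}.Finite :=
    (Fintype.piFinset A).finite_toSet.subset fun d hd => by
      rw [Finset.mem_coe, Fintype.mem_piFinset]
      exact hd.1
  have hsub : (W : Set (Fin N → ℕ)) ⊆ {d : Fin N → ℕ | (∀ j, d j ∈ A j) ∧
      PrimeFree (κ * record N) (Real.exp (N / Real.log N)) (g * ∑ j, (d j : ℤ) * (B : ℤ) ^ (j : ℕ) + c)} := by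
    intro d hd
    refine ⟨Fintype.mem_piFinset.1 (hW1 hd), ?_⟩
    have e1 : (g * ∑ j, (d j : ℤ) * (B : ℤ) ^ (j : ℕ) + c : ℤ) = Pool.Agent.D0H92.RG.val c g B d := by
      unfold Pool.Agent.D0H92.RG.val
      rw [add_comm]
      congr 2
      exact Finset.sum_congr rfl fun j _ => mul_comm _ _
    rw [e1]
    exact hW3 d hd
  have hcard := Set.ncard_le_ncard hsub hfin
  rw [Set.ncard_coe_finset] at hcard
  exact_mod_cast hcard

end Pool.Agent.Results.MP_7b323f_nt.MissingDigits
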