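import Pool.Agent.D0H59.RG.General
import Pool.Agent.D0H59.RG.PolyMod

set_option autoImplicit false

/-!
# Record prime gaps around the values modulo `P` of polynomials, on the whole range `N ≥ P ^ (1 / d + ε)`

Let `P` be a large prime number and let `f_1, …, f_r` be ARBITRARY polynomials over the field with
`P` elements, of degree at most `D`, such that every nontrivial linear combination of them (with
coefficients in the field) has degree at least `d ≥ 1`. Let `N ≥ P ^ (1 / d + ε)`, and let `a`,
`b ≠ 0` be elements of the field. Then for at least `N P ^ (-ε)` of the natural numbers `n < N` no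
prime number lies within `κ R(P)` of any of the least non-negative residues of
`f_1(a + b n), …, f_r(a + b n)` modulo `P`, where `R(P) = log P (log₂ P)² log₄ P / (log₃ P)²`. The
constant `κ` and the bound for `P` depend on `r`, `D`, `d` and `ε` only, not on the polynomials,
`N`, `a` and `b`.

Examples. For every large `P` and every polynomial `f` of degree `d` over the field, at least
`P ^ (1 / d)` of the natural numbers `n ≤ P ^ (1 / d + ε)` are such that the least residue of `f(n)`
modulo `P` lies at the centre of a record gap. The same for the least residues of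
`c_d n ^ d, c_(d+1) n ^ (d+1), …, c_D n ^ D` at the same time, for all `c_j ≠ 0`.

The range is the natural limit: for `N < P ^ (1 / d)` there need not be any reduction modulo `P` at
all (`f = X ^ d`).

Proof (`Pool.Agent.D0H59.RG`). The general principle `general`: a finite family of vectors modulo `P`
all of whose nontrivial character sums save a power of `P` meets record gaps. (The vector of the
least residues `v_j` is distributed uniformly to all small moduli `q`: if `t_j` is the least residue
of `v_j / q`, then `v_j = q t_j - P ⌊q t_j / P⌋`, so that the class of `v_j` modulo `q` is that of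
`- P ⌊q t_j / P⌋`, and the `t_j / P` have small exponential sums too; then the joint covering
criterion `critJ` (helper961) is applied to the family of all bad members.) The character sums are
Weyl sums; they are estimated by the inverse theorem `IW_all` of `Pool.Agent.H373R2.NB`: a large sum gives a
rational approximation with denominator below `P` and of quality `N ^ (-d)`, better than `1 / P`.
-/

namespace Pool.Agent.Results.MP_7b323f_nt.PolynomialsModuloPrimes

open Finset Filter Polynomial

/-- the record function `log x (log₂ x)² log₄ x / (log₃ x)²` -/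
noncomputable def R (x : ℝ) : ℝ :=
  Real.log x * (Real.log (Real.log x)) ^ 2 * Real.log (Real.log (Real.log (Real.log x))) /
    (Real.log (Real.log (Real.log x))) ^ 2

/-- The main theorem. -/
theorem result (r D d : ℕ) (hr : 1 ≤ r) (hd : 1 ≤ d) (ε : ℝ) (hε : 0 < ε) : ∃ κ : ℝ, 0 < κ ∧
    ∀ᶠ P : ℕ in atTop, P.Prime → ∀ f : Fin r → (ZMod P)[X], (∀ j, (f j).natDegree ≤ D) →
      (∀ h : Fin r → ZMod P, h ≠ 0 → d ≤ (∑ j, C (h j) * f j).natDegree) →
    ∀ a b : ZMod P, b ≠ 0 → ∀ N : ℕ, (P : ℝ) ^ (1 / (d : ℝ) + ε) ≤ N →
    ∃ G : Finset ℕ, G ⊆ range N ∧ N * (P : ℝ) ^ (-ε) ≤ (G.card : ℝ) ∧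
      ∀ n ∈ G, ∀ j, ∀ q : ℕ, q.Prime →
        κ * R P < |(q : ℝ) - (((f j).eval (a + b * (n : ZMod P))).val : ℝ)| := by
  classical
  obtain ⟨σ, hσ0, hσ1, hσε, hW⟩ := Pool.Agent.D0H59.RG.weyl_mod D d hd ε hε
  obtain ⟨κ, hκ, hev⟩ := Pool.Agent.D0H59.RG.general r hr σ hσ0 hσ1
  refine ⟨κ, hκ, ?_⟩
  filter_upwards [hev, hW] with P hP hWP hp f hfD hfd a b hb N hN
  have : Fact P.Prime := ⟨hp⟩
  have hP1 : (1 : ℝ) ≤ P := by exact_mod_cast hp.one_lt.le
  have h1 := hP hp ℕ (range N) (fun n j => (f j).eval (a + b * (n : ZMod P))) (by
    intro h hh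
    set g : (ZMod P)[X] := (∑ j, C (h j) * f j).comp (C b * X + C a) with hg
    have hdeg : g.natDegree = (∑ j, C (h j) * f j).natDegree := by
      rw [hg, natDegree_comp, natDegree_linear hb, mul_one]
    have hD : g.natDegree ≤ D := by
      rw [hdeg]
      apply natDegree_sum_le_of_forall_le
      intro j _
      exact (natDegree_C_mul_le _ _).trans (hfD j)
    have h2 := hWP hp g (by rw [hdeg]; exact hfd h hh) hD N hN
    rw [card_range]
    refine le_trans (le_of_eq ?_) h2
    congr 1
    refine Finset.sum_congr rfl fun n _ => ?_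
    congr 1
    rw [hg, eval_comp, eval_finsetSum]
    refine Finset.sum_congr rfl fun j _ => ?_
    rw [eval_mul, eval_C]
    congr 2
    simp [add_comm])
  refine ⟨(range N).filter (fun n => ∀ j, ∀ q : ℕ, q.Prime → κ * Pool.Agent.W147.PS.ff P <
    |(q : ℝ) - (((f j).eval (a + b * (n : ZMod P))).val : ℝ)|), Finset.filter_subset _ _, ?_, ?_⟩
  · refine le_trans ?_ (h1.trans (le_of_eq (by congr)))
    rw [card_range]
    apply mul_le_mul_of_nonneg_left _ (Nat.cast_nonneg _)
    exact Real.rpow_le_rpow_of_exponent_le hP1 (by linarith)
  · intro n hn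
    rw [Finset.mem_filter] at hn
    exact hn.2

end Pool.Agent.Results.MP_7b323f_nt.PolynomialsModuloPrimes
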