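import Pool.Agent.D0H59.RG.General
import Pool.Agent.D0H59.RG.Bilinear

set_option autoImplicit false

/-!
# Record prime gaps around the least residues modulo `P` of bilinear forms on arbitrary sets

Let `P` be a large prime number and let `A`, `B` be ARBITRARY sets of vectors with `k` and `l`
coordinates over the field with `P` elements. Let `M_1, …, M_r` be `k × l` matrices such that every
nontrivial linear combination of them has rank at least `ρ`, and let `u_j(a)`, `v_j(b)` be ARBITRARY
functions with values in the field. If `|A| |B| ≥ P ^ (k + l - ρ + ε)` then for at least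
`|A| |B| P ^ (-ε)` of the pairs `(a, b)` no prime number lies within `κ R(P)` of any of the least
non-negative residues modulo `P` of the `r` numbers `a · M_j b + u_j(a) + v_j(b)`, where
`R(P) = log P (log₂ P)² log₄ P / (log₃ P)²`. The constant `κ` and the bound for `P` depend on `r` and
`ε` only, not on `k`, `l`, the matrices, the sets and the functions.

Examples.
* `k = l = 1`, `r = 1`: the residues of `c a b + u(a) + v(b)` (`c ≠ 0`) for `|A| |B| ≥ P ^ (1 + ε)`:
  for instance the products `a b` modulo `P`, or all cosets of a subgroup `H` of the multiplicative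
  group with at least `P ^ (1 / 2 + ε)` elements (`A = H`, `B = c H`: every element of `c H` is the
  product of `|H|` pairs), such as the `d`-th powers modulo `P`, `d ≤ P ^ (1 / 2 - ε)`.
* `k = l = ρ`, `r = 1`, `M` the identity, `u(a) = |a|²`, `v(b) = |b|²`, `c = -2`: the squares of the
  distances between the points of two sets `A`, `B` with `|A| |B| ≥ P ^ (k + ε)`.
* `r = k = l = ρ`: all the coordinates of a product in the field with `P ^ k` elements, at the same
  time.
* `k l` forms `a_i b_j`, `ρ = 1`: all the products of a coordinate of `a` and a coordinate of `b`.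

The exponent `k` is sharp when `ρ = k = l`: for `A` a subspace and `B` its orthogonal complement,
`|A| |B| = P ^ k`, and all residues of `a · b` are `0`, at distance `2` from a prime number.

Proof (`Pool.Agent.D0H59.RG`). A general principle: a finite family of vectors modulo `P` all of whose
nontrivial character sums save a power of `P` meets record gaps (`general`). The vector of least
residues `v_j` is distributed uniformly to all small moduli `q`: if `t_j` is the least residue of
`v_j / q`, then `v_j = q t_j - P ⌊q t_j / P⌋`, so that the class of `v_j` modulo `q` is that of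
`- P ⌊q t_j / P⌋`, and the `t_j / P` have small exponential sums too. Then the joint covering
criterion (helper961, `critJ`) is applied to the family of all bad members: if few were good, the
bad ones would still have small sums. For the bilinear forms the sums are estimated by the inequality
of Cauchy and Schwarz.
-/

namespace Pool.Agent.Results.MP_7b323f_nt.ResiduesOfBilinearForms

open Finset Filter Matrix

/-- the record function `log x (log₂ x)² log₄ x / (log₃ x)²` -/
noncomputable def R (x : ℝ) : ℝ :=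
  Real.log x * (Real.log (Real.log x)) ^ 2 * Real.log (Real.log (Real.log (Real.log x))) /
    (Real.log (Real.log (Real.log x))) ^ 2

/-- The main theorem. -/
theorem result (r : ℕ) (hr : 1 ≤ r) (ε : ℝ) (hε : 0 < ε) : ∃ κ : ℝ, 0 < κ ∧
    ∀ᶠ P : ℕ in atTop, P.Prime → ∀ (k l ρ : ℕ) (M : Fin r → Matrix (Fin k) (Fin l) (ZMod P)),
      (∀ h : Fin r → ZMod P, h ≠ 0 → ρ ≤ (∑ j, h j • M j).rank) →
    ∀ (A : Finset (Fin k → ZMod P)) (B : Finset (Fin l → ZMod P)),
      (P : ℝ) ^ ((k : ℝ) + l - ρ + ε) ≤ (A.card : ℝ) * B.card →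
    ∀ (u : Fin r → (Fin k → ZMod P) → ZMod P) (v : Fin r → (Fin l → ZMod P) → ZMod P),
    ∃ G : Finset ((Fin k → ZMod P) × (Fin l → ZMod P)), G ⊆ A ×ˢ B ∧
      (A.card : ℝ) * B.card * (P : ℝ) ^ (-ε) ≤ (G.card : ℝ) ∧
      ∀ p ∈ G, ∀ j, ∀ q : ℕ, q.Prime →
        κ * R P < |(q : ℝ) - ((p.1 ⬝ᵥ (M j *ᵥ p.2) + u j p.1 + v j p.2).val : ℝ)| := by
  classical
  set σ : ℝ := min (ε / 2) 1 with hσ
  have hσ0 : 0 < σ := lt_min (by linarith) one_pos
  have hσ1 : σ ≤ 1 := min_le_right _ _
  have hσ2 : σ ≤ ε / 2 := min_le_left _ _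
  obtain ⟨κ, hκ, hev⟩ := Pool.Agent.D0H59.RG.general r hr σ hσ0 hσ1
  refine ⟨κ, hκ, ?_⟩
  filter_upwards [hev] with P hP hp k l ρ M hM A B hAB u v
  have : Fact P.Prime := ⟨hp⟩
  have hP1 : (1 : ℝ) ≤ P := by exact_mod_cast hp.one_lt.le
  have hP0 : (0 : ℝ) < P := by linarith
  set N : ℝ := (A.card : ℝ) * B.card with hN
  have hN0 : 0 < N := lt_of_lt_of_le (by positivity) hAB
  have hcard : (((A ×ˢ B).card : ℕ) : ℝ) = N := by rw [Finset.card_product]; push_cast; rfl
  have h1 := hP hp ((Fin k → ZMod P) × (Fin l → ZMod P)) (A ×ˢ B)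
    (fun p j => p.1 ⬝ᵥ (M j *ᵥ p.2) + u j p.1 + v j p.2) (by
    intro h hh
    have h2 := Pool.Agent.D0H59.RG.bilin P k l ρ (∑ j, h j • M j) (hM h hh) A B
      (fun a => ∑ j, h j * u j a) (fun b => ∑ j, h j * v j b)
    have h3 : ∀ p : (Fin k → ZMod P) × (Fin l → ZMod P),
        ∑ j, h j * (p.1 ⬝ᵥ (M j *ᵥ p.2) + u j p.1 + v j p.2) =
        p.1 ⬝ᵥ ((∑ j, h j • M j) *ᵥ p.2) + (∑ j, h j * u j p.1) + ∑ j, h j * v j p.2 := by
      intro p
      rw [Matrix.sum_mulVec, dotProduct_sum, ← Finset.sum_add_distrib, ← Finset.sum_add_distrib]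
      refine Finset.sum_congr rfl fun j _ => ?_
      rw [smul_mulVec, dotProduct_smul, smul_eq_mul]
      ring
    simp only [h3]
    rw [hcard]
    refine le_of_sq_le_sq ?_ (by positivity)
    refine h2.trans ?_
    rw [← hN]
    have h4 : (P : ℝ) ^ ((k : ℝ) + l - ρ) = (P : ℝ) ^ ((k : ℝ) + l - ρ + ε) * (P : ℝ) ^ (-ε) := by
      rw [← Real.rpow_add hP0]
      congr 1
      ring
    rw [h4]
    calc N * ((P : ℝ) ^ ((k : ℝ) + l - ρ + ε) * (P : ℝ) ^ (-ε)) ≤ N * (N * (P : ℝ) ^ (-ε)) := by
          gcongr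
      _ ≤ N * (N * (P : ℝ) ^ (-σ * 2)) := by
          have : (P : ℝ) ^ (-ε) ≤ (P : ℝ) ^ (-σ * 2) :=
            Real.rpow_le_rpow_of_exponent_le hP1 (by linarith)
          gcongr
      _ = (N * (P : ℝ) ^ (-σ)) ^ 2 := by
          rw [mul_pow, ← Real.rpow_natCast ((P : ℝ) ^ (-σ)), ← Real.rpow_mul hP0.le]
          push_cast
          ring)
  refine ⟨(A ×ˢ B).filter (fun p => ∀ j, ∀ q : ℕ, q.Prime → κ * Pool.Agent.W147.PS.ff P <
    |(q : ℝ) - ((p.1 ⬝ᵥ (M j *ᵥ p.2) + u j p.1 + v j p.2).val : ℝ)|),
    Finset.filter_subset _ _, ?_, ?_⟩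
  · refine le_trans ?_ (h1.trans (le_of_eq (by congr)))
    rw [hcard]
    apply mul_le_mul_of_nonneg_left _ hN0.le
    exact Real.rpow_le_rpow_of_exponent_le hP1 (by linarith)
  · intro p hp'
    rw [Finset.mem_filter] at hp'
    exact hp'.2

end Pool.Agent.Results.MP_7b323f_nt.ResiduesOfBilinearForms
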