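import Mathlib
import Pool.Agent.D0H60.RMG.Laws

set_option autoImplicit false

/-!
# The growth exponent of the largest gaps in all sequential random models of the primes with a sieve

The question is whether the largest gap `G(x)` after a prime `p ≤ x` is `(log x) ^ (2 + o(1))`.  We answer
it in the following class of random models.  The integers are decided one after the other; no `n` with a
prime factor at most `z(n)` is chosen; and the conditional probability, given the past, that a number
`n + 1` without prime factors at most `z(n + 1)` is chosen is asymptotic to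
`∏_{q ≤ z(n + 1)} (1 - 1/q)⁻¹ / log n`.  Nothing else is assumed: no independence, no rate, no regularity
of `z`.  If `z(n) ≤ (log n) ^ (1 + o(1))`, the range in which the residue classes modulo the product of
the primes up to `z` can all occur below `x`, then almost surely `G(x) = (log x) ^ (2 + o(1))`.  More generally, if
`z(n) ≤ (log n) ^ (a + o(1))` with `a ≥ 1`, then `(log x) ^ (2 - o(1)) ≤ G(x) ≤ (log x) ^ (2 a + o(1))`.

Proof.  Upper bound: the linear sieve bounds the sum of the densities over every window of length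
`(log x) ^ (2 a + ε)` from below, and the probability that a window is empty is at most `exp` of minus a
constant times this sum.  Lower bound: one of the many disjoint windows of length `(log x) ^ (2 - ε)` is
empty, as the conditional probability that such a window is empty is at least `x ^ (- o(1))`.
-/

open MeasureTheory Filter
open scoped Topology

namespace Pool.Agent.Results.MP_7b323f_nt.SequentialSieveModels

/-- `∏_{q ≤ x} (1 - 1/q)⁻¹`, `q` prime -/
noncomputable def W (x : ℕ) : ℝ := ∏ q ∈ (Finset.Icc 1 x).filter Nat.Prime, (1 - (q : ℝ)⁻¹)⁻¹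

/-- `g` is the gap of `T` after the element `s`: `s + g` is the next element -/
def IsGap (T : Set ℕ) (s g : ℕ) : Prop := s ∈ T ∧ 0 < g ∧ s + g ∈ T ∧ ∀ j, 0 < j → j < g → s + j ∉ T

/-- the largest gap of `T` after an element not exceeding `x` -/
noncomputable def G (T : Set ℕ) (x : ℝ) : ℕ := sSup {g | ∃ s : ℕ, (s : ℝ) ≤ x ∧ IsGap T s g}

/-- **The growth exponent of the largest gaps in sequential random models of the primes.**  Let `S n` be
the event that `n` is chosen, adapted to a filtration `ℱ`.  Let `a ≥ 1` and let `z(n)` be natural numbers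
which, for every `ε > 0`, are at most `(log n) ^ (a + ε)` for all large `n`.  Let no `n` with a prime
factor at most `z(n)` be chosen, and let the conditional probability of `S (n + 1)` given `ℱ n`, times `log n / ∏_{q ≤ z(n + 1)} (1 - 1/q)⁻¹`, tend to `1` along the `n` for which
`n + 1` has no prime factor at most `z(n + 1)`, almost surely.  Then almost surely infinitely many `n` are
chosen and, for every `ε > 0` and all large `x`, the largest gap `G(x)` after a chosen number not
exceeding `x` satisfies `(log x) ^ (2 - ε) ≤ G(x) ≤ (log x) ^ (2 a + ε)`.  For `a = 1` this is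
`G(x) = (log x) ^ (2 + o(1))`. -/
theorem result {Ω : Type} [mΩ : MeasurableSpace Ω] (μ : Measure Ω) [IsProbabilityMeasure μ]
    (ℱ : Filtration ℕ mΩ) (S : ℕ → Set Ω) (hS : ∀ n, MeasurableSet[ℱ n] (S n)) (z : ℕ → ℕ) (a : ℝ)
    (ha : 1 ≤ a) (hz : ∀ ε : ℝ, 0 < ε → ∀ᶠ n : ℕ in atTop, (z n : ℝ) ≤ Real.log n ^ (a + ε))
    (hsieve : ∀ n, (∃ q, q.Prime ∧ q ≤ z n ∧ q ∣ n) → S n = ∅)
    (hd : ∀ᵐ ω ∂μ, Tendsto (fun n : ℕ =>
      (μ[(S (n + 1)).indicator (fun _ => (1 : ℝ)) | ℱ n]) ω * Real.log n / W (z (n + 1)))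
      (atTop ⊓ 𝓟 {n : ℕ | ∀ q, q.Prime → q ≤ z (n + 1) → ¬ q ∣ n + 1}) (𝓝 1)) :
    ∀ᵐ ω ∂μ, {n | ω ∈ S n}.Infinite ∧ ∀ ε : ℝ, 0 < ε → ∀ᶠ x : ℝ in atTop,
      Real.log x ^ (2 - ε) ≤ G {n | ω ∈ S n} x ∧ (G {n | ω ∈ S n} x : ℝ) ≤ Real.log x ^ (2 * a + ε) := by
  have hcop : ∀ n, ¬ Pool.Agent.D0H60.RMG.Rough z n → S n = ∅ := by
    intro n hn
    unfold Pool.Agent.D0H60.RMG.Rough at hn
    push Not at hn
    exact hsieve n hn
  have hprof := Pool.Agent.D0H60.RMG.profile (μ := μ) (ℱ := ℱ) (A := S) z hcop hd
  have h1 := Pool.Agent.D0H60.RMG.law_up (μ := μ) (ℱ := ℱ) (A := S) hS z a ha hz hprof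
  have hinf : ∀ᵐ ω ∂μ, {n | ω ∈ S n}.Infinite := by
    filter_upwards [h1] with ω hω
    exact hω.1
  have h2 := Pool.Agent.D0H60.RMG.law_low (μ := μ) (ℱ := ℱ) (A := S) hS z (a + 1) (by linarith)
    (hz 1 one_pos) hprof hinf
  filter_upwards [h1, h2] with ω g1 g2
  refine ⟨g1.1, fun ε hε => ?_⟩
  filter_upwards [g1.2 ε hε, g2 ε hε] with x k1 k2
  exact ⟨k2, k1⟩

end Pool.Agent.Results.MP_7b323f_nt.SequentialSieveModels
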